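import Mathlib

set_option autoImplicit false

namespace Pool.Agent.Results.MP_8dcd4d_gt.NotCoConsonant

open TopologicalSpace Set

/-- A space is co-consonant if the upper topology and the Scott topology on its lattice of open
sets coincide. -/
def CoConsonant (X : Type) [TopologicalSpace X] : Prop :=
  Topology.upper (Opens X) = Topology.scott (Opens X) Set.univ

/-- The points of the Smyth powerspace: nonempty compact saturated subsets. -/
def Smyth (X : Type) [TopologicalSpace X] : Type :=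
  {K : Set X // K.Nonempty ∧ IsCompact K ∧ ⋂₀ {U : Set X | IsOpen U ∧ K ⊆ U} = K}

/-- The upper Vietoris topology on the Smyth powerspace. -/
instance (X : Type) [TopologicalSpace X] : TopologicalSpace (Smyth X) :=
  TopologicalSpace.generateFrom {S | ∃ U : Set X, IsOpen U ∧ S = {K | K.1 ⊆ U}}

/-! ### A reformulation of co-consonance -/

/-- Every Scott open family is generated by finite sets of points. -/
def FinCons (X : Type) [TopologicalSpace X] : Prop :=
  ∀ F : Set (Opens X), IsUpperSet F → DirSupInacc F → ∀ U ∈ F,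
    ∃ E : Finset X, (∀ x ∈ E, x ∈ U) ∧ ∀ V : Opens X, (∀ x ∈ E, x ∈ V) → V ∈ F

theorem scott_isOpen_iff {α : Type} [Preorder α] (s : Set α) :
    (Topology.scott α Set.univ).IsOpen s ↔ IsUpperSet s ∧ DirSupInacc s := by
  have := @Topology.IsScott.isOpen_iff_isUpperSet_and_dirSupInaccOn α Set.univ _
    (Topology.scott α Set.univ) s (@Topology.IsScott.mk α Set.univ _ (Topology.scott α Set.univ) rfl)
  rw [dirSupInaccOn_univ] at this
  exact this

theorem finCons_of_coConsonant {X : Type} [TopologicalSpace X] (h : CoConsonant X) :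
    FinCons X := by
  classical
  intro F hup hdir U hU
  have hopen : (Topology.upper (Opens X)).IsOpen F := by
    rw [h]
    exact (scott_isOpen_iff F).mpr ⟨hup, hdir⟩
  have hb := @Topology.IsUpper.isTopologicalBasis (Opens X) _ (Topology.upper (Opens X))
    (@Topology.IsUpper.mk (Opens X) (Topology.upper (Opens X)) _ rfl)
  obtain ⟨B, ⟨t, htf, rfl⟩, hUB, hBF⟩ :=
    @TopologicalSpace.IsTopologicalBasis.exists_subset_of_mem_open (Opens X)
      (Topology.upper (Opens X)) _ hb U F hU hopen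
  -- for each `A ∈ t` choose a point of `U` outside `A`
  have hx : ∀ A ∈ t, ∃ x : X, x ∈ U ∧ x ∉ A := by
    intro A hA
    by_contra hcon
    push Not at hcon
    exact hUB (mem_lowerClosure.mpr ⟨A, hA, hcon⟩)
  have hx' : ∀ A : Opens X, ∃ x : Option X, ∀ hA : A ∈ t, ∃ y, x = some y ∧ y ∈ U ∧ y ∉ A := by
    intro A
    by_cases hA : A ∈ t
    · obtain ⟨y, hy1, hy2⟩ := hx A hA
      exact ⟨some y, fun _ => ⟨y, rfl, hy1, hy2⟩⟩
    · exact ⟨none, fun h => absurd h hA⟩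
  choose p hp using hx'
  refine ⟨htf.toFinset.biUnion fun A => (p A).toFinset, ?_, ?_⟩
  · intro x hx
    rw [Finset.mem_biUnion] at hx
    obtain ⟨A, hA, hxA⟩ := hx
    obtain ⟨y, hy, hyU, _⟩ := hp A (htf.mem_toFinset.mp hA)
    rw [hy] at hxA
    simp only [Option.toFinset_some, Finset.mem_singleton] at hxA
    exact hxA ▸ hyU
  · intro V hV
    apply hBF
    intro hVt
    obtain ⟨A, hA, hVA⟩ := mem_lowerClosure.mp hVt
    obtain ⟨y, hy, hyU, hyA⟩ := hp A hA
    apply hyA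
    apply hVA
    apply hV
    rw [Finset.mem_biUnion]
    exact ⟨A, htf.mem_toFinset.mpr hA, by rw [hy]; simp⟩

theorem coConsonant_of_finCons {X : Type} [TopologicalSpace X] (h : FinCons X) :
    CoConsonant X := by
  classical
  unfold CoConsonant
  apply TopologicalSpace.ext
  funext s
  apply propext
  change (Topology.upper (Opens X)).IsOpen s ↔ (Topology.scott (Opens X) Set.univ).IsOpen s
  constructor
  · intro hs
    rw [scott_isOpen_iff]
    have hup : IsUpperSet s := @Topology.IsUpper.isUpperSet_of_isOpen (Opens X) _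
      (Topology.upper (Opens X)) (@Topology.IsUpper.mk (Opens X) (Topology.upper (Opens X)) _ rfl)
      s hs
    refine ⟨hup, ?_⟩
    -- by induction on the generation of open sets
    have hs' : TopologicalSpace.GenerateOpen {s | ∃ a : Opens X, (Iic a)ᶜ = s} s := hs
    clear hup
    induction hs' with
    | basic u hu =>
      obtain ⟨a, rfl⟩ := hu
      intro d hd hdir b hb hba
      by_contra hcon
      apply hba
      apply hb.2
      intro c hc
      by_contra hca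
      exact hcon ⟨c, hc, hca⟩
    | univ =>
      intro d hd hdir b hb _
      obtain ⟨c, hc⟩ := hd
      exact ⟨c, hc, trivial⟩
    | inter u v hu hv ihu ihv =>
      have hupu : IsUpperSet u := @Topology.IsUpper.isUpperSet_of_isOpen (Opens X) _
        (Topology.upper (Opens X))
        (@Topology.IsUpper.mk (Opens X) (Topology.upper (Opens X)) _ rfl) u hu
      have hupv : IsUpperSet v := @Topology.IsUpper.isUpperSet_of_isOpen (Opens X) _
        (Topology.upper (Opens X))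
        (@Topology.IsUpper.mk (Opens X) (Topology.upper (Opens X)) _ rfl) v hv
      intro d hd hdir b hb hbuv
      obtain ⟨c1, hc1, hc1u⟩ := ihu hu hd hdir hb hbuv.1
      obtain ⟨c2, hc2, hc2v⟩ := ihv hv hd hdir hb hbuv.2
      obtain ⟨c, hc, h1, h2⟩ := hdir c1 hc1 c2 hc2
      exact ⟨c, hc, hupu h1 hc1u, hupv h2 hc2v⟩
    | sUnion S hS ih =>
      rintro d hd hdir b hb ⟨u, hu, hbu⟩
      obtain ⟨c, hc, hcu⟩ := ih u hu (hS u hu) hd hdir hb hbu
      exact ⟨c, hc, u, hu, hcu⟩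
  · intro hs
    rw [scott_isOpen_iff] at hs
    refine (@isOpen_iff_forall_mem_open (Opens X) (Topology.upper (Opens X)) s).mpr ?_
    intro U hU
    obtain ⟨E, hEU, hE⟩ := h s hs.1 hs.2 U hU
    refine ⟨⋂ x ∈ E, {V : Opens X | x ∈ V}, ?_, ?_, ?_⟩
    · intro V hV
      apply hE
      intro x hx
      exact Set.mem_iInter₂.mp hV x hx
    · refine @isOpen_biInter_finset (Opens X) X (Topology.upper (Opens X)) _ _ ?_
      intro x _
      refine TopologicalSpace.isOpen_generateFrom_of_mem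
        ⟨⟨(closure {x})ᶜ, isClosed_closure.isOpen_compl⟩, ?_⟩
      ext V
      constructor
      · intro hV
        by_contra hx
        apply hV
        intro y hy hycl
        obtain ⟨z, hzV, hzx⟩ := mem_closure_iff.mp hycl V.1 V.2 hy
        rw [Set.mem_singleton_iff] at hzx
        exact hx (hzx ▸ hzV)
      · intro hxV hle
        exact hle hxV (subset_closure rfl)
    · exact Set.mem_iInter₂.mpr hEU

/-! ### The space -/

/-- Underlying set: all functions `ℕ → ℕ`, a grid of points and one more point. -/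
inductive Pt : Type
  | fn : (ℕ → ℕ) → Pt
  | pt : ℕ → ℕ → Pt
  | c : Pt

/-- The open sets. -/
def opn (W : Set Pt) : Prop :=
  (∀ h, Pt.fn h ∈ W → (∃ n, ∀ g : ℕ → ℕ, (∀ m < n, g m ≤ h m) → Pt.fn g ∈ W) ∧
    ∀ m k, Pt.pt m k ∈ W) ∧
  (∀ m k j, Pt.pt m k ∈ W → k ≤ j → Pt.pt m j ∈ W) ∧
  (Pt.c ∈ W → ∀ m, ∃ k, Pt.pt m k ∈ W)

instance topPt : TopologicalSpace Pt where
  IsOpen := opn
  isOpen_univ := ⟨fun _ _ => ⟨⟨0, fun _ _ => trivial⟩, fun _ _ => trivial⟩,
    fun _ _ _ _ _ => trivial, fun _ _ => ⟨0, trivial⟩⟩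
  isOpen_inter := by
    rintro U V ⟨hU1, hU2, hU3⟩ ⟨hV1, hV2, hV3⟩
    refine ⟨?_, ?_, ?_⟩
    · rintro h ⟨hhU, hhV⟩
      obtain ⟨⟨n1, h1⟩, h1'⟩ := hU1 h hhU
      obtain ⟨⟨n2, h2⟩, h2'⟩ := hV1 h hhV
      exact ⟨⟨max n1 n2, fun g hg =>
        ⟨h1 g fun m hm => hg m (lt_of_lt_of_le hm (le_max_left _ _)),
         h2 g fun m hm => hg m (lt_of_lt_of_le hm (le_max_right _ _))⟩⟩,
        fun m k => ⟨h1' m k, h2' m k⟩⟩
    · rintro m k j ⟨h1, h2⟩ hkj
      exact ⟨hU2 m k j h1 hkj, hV2 m k j h2 hkj⟩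
    · rintro ⟨h1, h2⟩ m
      obtain ⟨k1, hk1⟩ := hU3 h1 m
      obtain ⟨k2, hk2⟩ := hV3 h2 m
      exact ⟨max k1 k2, hU2 m k1 _ hk1 (le_max_left _ _), hV2 m k2 _ hk2 (le_max_right _ _)⟩
  isOpen_sUnion := by
    intro S hS
    refine ⟨?_, ?_, ?_⟩
    · rintro h ⟨U, hU, hh⟩
      obtain ⟨⟨n1, h1⟩, h1'⟩ := (hS U hU).1 h hh
      exact ⟨⟨n1, fun g hg => ⟨U, hU, h1 g hg⟩⟩, fun m k => ⟨U, hU, h1' m k⟩⟩
    · rintro m k j ⟨U, hU, h1⟩ hkj
      exact ⟨U, hU, (hS U hU).2.1 m k j h1 hkj⟩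
    · rintro ⟨U, hU, h1⟩ m
      obtain ⟨k, hk⟩ := (hS U hU).2.2 h1 m
      exact ⟨k, U, hU, hk⟩

theorem isOpen_iff_opn (U : Set Pt) : IsOpen U ↔ opn U := Iff.rfl

/-- The open set of all grid points. -/
def Tset : Set Pt := {x | ∃ m k, x = Pt.pt m k}

theorem isOpen_Tset : IsOpen Tset := by
  refine ⟨?_, ?_, ?_⟩
  · rintro h ⟨m, k, hmk⟩
    simp at hmk
  · rintro m k j _ _
    exact ⟨m, j, rfl⟩
  · rintro ⟨m, k, hmk⟩
    simp at hmk

theorem isOpen_compl_c : IsOpen ({Pt.c}ᶜ : Set Pt) := by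
  refine ⟨fun h _ => ⟨⟨0, fun g _ => by simp⟩, fun m k => by simp⟩, fun m k j _ _ => by simp,
    fun h => absurd rfl h⟩

/-- basic neighbourhoods of the points `fn h` -/
def Gset (h : ℕ → ℕ) (n : ℕ) : Set Pt := Tset ∪ {x | ∃ g : ℕ → ℕ, x = Pt.fn g ∧ ∀ m < n, g m ≤ h m}

theorem isOpen_Gset (h : ℕ → ℕ) (n : ℕ) : IsOpen (Gset h n) := by
  refine ⟨?_, ?_, ?_⟩
  · rintro h' (h1 | ⟨g, hg, hle⟩)
    · obtain ⟨m, k, hmk⟩ := h1
      simp at hmk
    · simp only [Pt.fn.injEq] at hg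
      subst hg
      exact ⟨⟨n, fun g hg => Or.inr ⟨g, rfl, fun m hm => (hg m hm).trans (hle m hm)⟩⟩,
        fun m k => Or.inl ⟨m, k, rfl⟩⟩
  · rintro m k j _ _
    exact Or.inl ⟨m, j, rfl⟩
  · rintro (h1 | ⟨g, hg, hle⟩)
    · obtain ⟨m, k, hmk⟩ := h1
      simp at hmk
    · simp at hg

theorem fn_mem_Gset (h g : ℕ → ℕ) (n : ℕ) : Pt.fn g ∈ Gset h n ↔ ∀ m < n, g m ≤ h m := by
  constructor
  · rintro (⟨m, k, hmk⟩ | ⟨g', hg, hle⟩)
    · simp at hmk
    · simp only [Pt.fn.injEq] at hg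
      subst hg
      exact hle
  · intro hle
    exact Or.inr ⟨g, rfl, hle⟩

/-- principal open filter of a grid point -/
def Uset (m k : ℕ) : Set Pt := {x | ∃ j, x = Pt.pt m j ∧ k ≤ j}

theorem isOpen_Uset (m k : ℕ) : IsOpen (Uset m k) := by
  refine ⟨?_, ?_, ?_⟩
  · rintro h ⟨j, hj, _⟩
    simp at hj
  · rintro m' k' j ⟨i, hi, hki⟩ hkj
    simp only [Pt.pt.injEq] at hi
    obtain ⟨rfl, rfl⟩ := hi
    exact ⟨j, rfl, hki.trans hkj⟩
  · rintro ⟨j, hj, _⟩
    simp at hj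

theorem pt_mem_Uset (m k m' j : ℕ) : Pt.pt m' j ∈ Uset m k ↔ m' = m ∧ k ≤ j := by
  constructor
  · rintro ⟨i, hi, hki⟩
    simp only [Pt.pt.injEq] at hi
    obtain ⟨rfl, rfl⟩ := hi
    exact ⟨rfl, hki⟩
  · rintro ⟨rfl, h⟩
    exact ⟨j, rfl, h⟩

instance : T0Space Pt := by
  refine (t0Space_iff_inseparable Pt).mpr ?_
  intro x y hxy
  rw [inseparable_iff_forall_isOpen] at hxy
  have hT := hxy _ isOpen_Tset
  have hc := hxy _ isOpen_compl_c
  cases x with
  | fn g =>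
    cases y with
    | fn h =>
      congr 1
      funext m
      have h1 := hxy _ (isOpen_Gset g (m + 1))
      have h2 := hxy _ (isOpen_Gset h (m + 1))
      rw [fn_mem_Gset, fn_mem_Gset] at h1 h2
      have h3 := h1.mp (fun _ _ => le_rfl) m (Nat.lt_succ_self m)
      have h4 := h2.mpr (fun _ _ => le_rfl) m (Nat.lt_succ_self m)
      exact le_antisymm h4 h3
    | pt m k =>
      obtain ⟨a, b, hab⟩ := hT.mpr ⟨m, k, rfl⟩
      simp at hab
    | c => simp at hc
  | pt m k =>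
    cases y with
    | fn h =>
      obtain ⟨a, b, hab⟩ := hT.mp ⟨m, k, rfl⟩
      simp at hab
    | pt m' k' =>
      have h1 := hxy _ (isOpen_Uset m k)
      have h2 := hxy _ (isOpen_Uset m' k')
      rw [pt_mem_Uset, pt_mem_Uset] at h1 h2
      have h3 := h1.mp ⟨rfl, le_rfl⟩
      have h4 := h2.mpr ⟨rfl, le_rfl⟩
      have h5 : k = k' := le_antisymm h3.2 h4.2
      rw [h5, h3.1]
    | c => simp at hc
  | c =>
    cases y with
    | fn h => simp at hc
    | pt m k => simp at hc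
    | c => rfl

/-! ### Co-consonance of the space -/

theorem mem_of_directed {X : Type} [TopologicalSpace X] {F : Set (Opens X)} (hF : DirSupInacc F)
    {ι : Type} [Nonempty ι] (f : ι → Opens X) (hf : Directed (· ≤ ·) f) (U : Opens X) (hU : U ∈ F)
    (hUf : ∀ x ∈ U, ∃ i, x ∈ f i) (hup : IsUpperSet F) : ∃ i, f i ∈ F := by
  have h1 : U ≤ ⨆ i, f i := by
    intro x hx
    obtain ⟨i, hi⟩ := hUf x hx
    exact Opens.mem_iSup.mpr ⟨i, hi⟩
  have h2 : (⨆ i, f i) ∈ F := hup h1 hU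
  obtain ⟨_, ⟨i, rfl⟩, hi⟩ := hF (Set.range_nonempty f) (directedOn_range.mpr hf)
    (isLUB_iSup (f := f)) h2
  exact ⟨i, hi⟩

/-- Case A: the open set consists of grid points. -/
theorem case_A (F : Set (Opens Pt)) (hup : IsUpperSet F) (hdir : DirSupInacc F) (U : Opens Pt)
    (hU : U ∈ F) (hfn : ∀ h, Pt.fn h ∉ U) (hc : Pt.c ∉ U) :
    ∃ E : Finset Pt, (∀ x ∈ E, x ∈ U) ∧ ∀ V : Opens Pt, (∀ x ∈ E, x ∈ V) → V ∈ F := by
  classical
  let f : {E : Finset Pt // ∀ x ∈ E, x ∈ U} → Opens Pt := fun E =>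
    ⟨{x | ∃ m k j, Pt.pt m k ∈ E.1 ∧ k ≤ j ∧ x = Pt.pt m j}, by
      refine ⟨?_, ?_, ?_⟩
      · rintro h ⟨m, k, j, _, _, h1⟩
        simp at h1
      · rintro m k j ⟨m', k', j', h1, h2, h3⟩ hkj
        simp only [Pt.pt.injEq] at h3
        obtain ⟨rfl, rfl⟩ := h3
        exact ⟨m, k', j, h1, h2.trans hkj, rfl⟩
      · rintro ⟨m, k, j, _, _, h1⟩
        simp at h1⟩
  have : Nonempty {E : Finset Pt // ∀ x ∈ E, x ∈ U} := ⟨⟨∅, by simp⟩⟩
  obtain ⟨E, hE⟩ := mem_of_directed hdir f (by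
    rintro ⟨E1, h1⟩ ⟨E2, h2⟩
    refine ⟨⟨E1 ∪ E2, fun x hx => ?_⟩, ?_, ?_⟩
    · rcases Finset.mem_union.mp hx with h | h
      · exact h1 x h
      · exact h2 x h
    · rintro x ⟨m, k, j, h3, h4, h5⟩
      exact ⟨m, k, j, Finset.mem_union_left _ h3, h4, h5⟩
    · rintro x ⟨m, k, j, h3, h4, h5⟩
      exact ⟨m, k, j, Finset.mem_union_right _ h3, h4, h5⟩) U hU (by
    intro x hx
    cases x with
    | fn h => exact absurd hx (hfn h)
    | c => exact absurd hx hc
    | pt m k =>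
      refine ⟨⟨{Pt.pt m k}, by simpa using hx⟩, m, k, k, by simp, le_rfl, rfl⟩) hup
  refine ⟨E.1, E.2, fun V hV => hup ?_ hE⟩
  rintro x ⟨m, k, j, h3, h4, rfl⟩
  exact V.2.2.1 m k j (hV _ h3) h4

/-- Case B: the open set contains `c` but no function. -/
theorem case_B (F : Set (Opens Pt)) (hup : IsUpperSet F) (hdir : DirSupInacc F) (U : Opens Pt)
    (hU : U ∈ F) (hfn : ∀ h, Pt.fn h ∉ U) (hc : Pt.c ∈ U) :
    ∃ E : Finset Pt, (∀ x ∈ E, x ∈ U) ∧ ∀ V : Opens Pt, (∀ x ∈ E, x ∈ V) → V ∈ F := by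
  classical
  by_contra hcon
  push Not at hcon
  have hUc : ∀ m, ∃ k, Pt.pt m k ∈ U := U.2.2.2 hc
  let f : ℕ → ℕ := fun m => Nat.find (hUc m)
  have hf : ∀ m, Pt.pt m (f m) ∈ U := fun m => Nat.find_spec (hUc m)
  have hfle : ∀ m k, Pt.pt m k ∈ U → f m ≤ k := fun m k h => Nat.find_min' (hUc m) h
  let E : ℕ → Finset Pt := fun n => insert Pt.c ((Finset.range n).image fun m => Pt.pt m (f m))
  have hE : ∀ n, ∀ x ∈ E n, x ∈ U := by
    intro n x hx
    rcases Finset.mem_insert.mp hx with rfl | hx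
    · exact hc
    · obtain ⟨m, _, rfl⟩ := Finset.mem_image.mp hx
      exact hf m
  choose V hEV hVF using fun n => hcon (E n) (hE n)
  have hcV : ∀ n, Pt.c ∈ V n := fun n => hEV n _ (Finset.mem_insert_self _ _)
  have hptV : ∀ n m, m < n → ∀ k, f m ≤ k → Pt.pt m k ∈ V n := by
    intro n m hmn k hk
    refine (V n).2.2.1 m (f m) k (hEV n _ ?_) hk
    exact Finset.mem_insert_of_mem (Finset.mem_image.mpr ⟨m, Finset.mem_range.mpr hmn, rfl⟩)
  let W : ℕ → Opens Pt := fun n => ⟨{x | x ∈ U ∧ ∀ m, n ≤ m → x ∈ V m}, by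
    refine ⟨fun h hh => absurd hh.1 (hfn h), ?_, ?_⟩
    · rintro m k j ⟨h1, h2⟩ hkj
      exact ⟨U.2.2.1 m k j h1 hkj, fun i hi => (V i).2.2.1 m k j (h2 i hi) hkj⟩
    · rintro _ m
      choose N hN using fun i => (V i).2.2.2 (hcV i) m
      refine ⟨max (f m) ((Finset.range (m + 1)).sup N), ?_, ?_⟩
      · exact U.2.2.1 m _ _ (hf m) (le_max_left _ _)
      · intro i _
        by_cases hi : i < m + 1
        · refine (V i).2.2.1 m _ _ (hN i) ?_
          exact le_trans (Finset.le_sup (f := N) (Finset.mem_range.mpr hi)) (le_max_right _ _)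
        · exact hptV i m (by omega) _ (le_max_left _ _)⟩
  have hmono : Monotone W := fun i j hij x hx => ⟨hx.1, fun m hm => hx.2 m (hij.trans hm)⟩
  obtain ⟨n, hn⟩ := mem_of_directed hdir W hmono.directed_le U hU (by
    intro x hx
    cases x with
    | fn h => exact absurd hx (hfn h)
    | c => exact ⟨0, hx, fun m _ => hcV m⟩
    | pt m k => exact ⟨m + 1, hx, fun i hi => hptV i m (by omega) k (hfle m k hx)⟩) hup
  exact hVF n (hup (show W n ≤ V n from fun x hx => hx.2 n le_rfl) hn)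

/-- Case C: the open set contains some function. -/
theorem case_C (F : Set (Opens Pt)) (hup : IsUpperSet F) (hdir : DirSupInacc F) (U : Opens Pt)
    (hU : U ∈ F) (h₀ : ℕ → ℕ) (hfn : Pt.fn h₀ ∈ U) :
    ∃ E : Finset Pt, (∀ x ∈ E, x ∈ U) ∧ ∀ V : Opens Pt, (∀ x ∈ E, x ∈ V) → V ∈ F := by
  classical
  have hTU : ∀ m k, Pt.pt m k ∈ U := (U.2.1 h₀ hfn).2
  -- the open sets `R P j t`
  let R : Finset ((ℕ → ℕ) × ℕ) → (ℕ → ℕ) → ℕ → Opens Pt := fun P j t =>
    ⟨{x | (x ∈ U ∧ ∀ g, x ≠ Pt.fn g) ∨ ∃ g, x = Pt.fn g ∧ ∃ p ∈ P, (∀ m < p.2, g m ≤ p.1 m) ∧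
      ∀ m < t, g (p.2 + m) ≤ j m}, by
      refine ⟨?_, ?_, ?_⟩
      · rintro h (⟨_, h1⟩ | ⟨g, hg, p, hpP, h1, h2⟩)
        · exact absurd rfl (h1 h)
        · simp only [Pt.fn.injEq] at hg
          subst hg
          refine ⟨⟨p.2 + t, fun g hg => Or.inr ⟨g, rfl, p, hpP, ?_, ?_⟩⟩, fun m k => Or.inl ⟨hTU m k, by simp⟩⟩
          · intro m hm
            exact (hg m (by omega)).trans (h1 m hm)
          · intro m hm
            exact (hg (p.2 + m) (by omega)).trans (h2 m hm)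
      · intro m k j _ _
        exact Or.inl ⟨hTU m j, by simp⟩
      · intro _ m
        exact ⟨0, Or.inl ⟨hTU m 0, by simp⟩⟩⟩
  have hR_pt : ∀ P j t m k, Pt.pt m k ∈ R P j t := fun P j t m k => Or.inl ⟨hTU m k, by simp⟩
  have hR_fn : ∀ P j t g, Pt.fn g ∈ R P j t ↔ ∃ p ∈ P, (∀ m < p.2, g m ≤ p.1 m) ∧
      ∀ m < t, g (p.2 + m) ≤ j m := by
    intro P j t g
    constructor
    · rintro (⟨_, h1⟩ | ⟨g', hg, h⟩)
      · exact absurd rfl (h1 g)
      · simp only [Pt.fn.injEq] at hg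
        subst hg
        exact h
    · intro h
      exact Or.inr ⟨g, rfl, h⟩
  have hR_c : ∀ P j t, Pt.c ∈ R P j t ↔ Pt.c ∈ U := by
    intro P j t
    constructor
    · rintro (⟨h1, _⟩ | ⟨g', hg, h⟩)
      · exact h1
      · simp at hg
    · intro h
      exact Or.inl ⟨h, by simp⟩
  -- Step 1: a finite set `P`
  obtain ⟨P, hPU, hPne, hPF⟩ : ∃ P : Finset ((ℕ → ℕ) × ℕ),
      (∀ p ∈ P, ∀ g : ℕ → ℕ, (∀ m < p.2, g m ≤ p.1 m) → Pt.fn g ∈ U) ∧ P.Nonempty ∧
      R P (fun _ => 0) 0 ∈ F := by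
    obtain ⟨n₀, hn₀⟩ := (U.2.1 h₀ hfn).1
    let I := {P : Finset ((ℕ → ℕ) × ℕ) //
      (∀ p ∈ P, ∀ g : ℕ → ℕ, (∀ m < p.2, g m ≤ p.1 m) → Pt.fn g ∈ U) ∧ P.Nonempty}
    let P₀ : I := ⟨{(h₀, n₀)}, by
      intro p hp g hg
      rw [Finset.mem_singleton] at hp
      subst hp
      exact hn₀ g hg, by simp⟩
    have : Nonempty I := ⟨P₀⟩
    obtain ⟨P, hP⟩ := mem_of_directed hdir (fun P : I => R P.1 (fun _ => 0) 0) (by
      rintro ⟨P1, h1, h1'⟩ ⟨P2, h2, h2'⟩
      refine ⟨⟨P1 ∪ P2, fun p hp => ?_, ?_⟩, ?_, ?_⟩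
      · rcases Finset.mem_union.mp hp with h | h
        · exact h1 p h
        · exact h2 p h
      · obtain ⟨p, hp⟩ := h1'
        exact ⟨p, Finset.mem_union_left _ hp⟩
      · intro x hx
        cases x with
        | fn g =>
          obtain ⟨p, hp, h3⟩ := (hR_fn _ _ _ _).mp hx
          exact (hR_fn _ _ _ _).mpr ⟨p, Finset.mem_union_left _ hp, h3⟩
        | pt m k => exact hR_pt _ _ _ _ _
        | c => exact (hR_c _ _ _).mpr ((hR_c _ _ _).mp hx)
      · intro x hx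
        cases x with
        | fn g =>
          obtain ⟨p, hp, h3⟩ := (hR_fn _ _ _ _).mp hx
          exact (hR_fn _ _ _ _).mpr ⟨p, Finset.mem_union_right _ hp, h3⟩
        | pt m k => exact hR_pt _ _ _ _ _
        | c => exact (hR_c _ _ _).mpr ((hR_c _ _ _).mp hx)) U hU (by
      intro x hx
      cases x with
      | fn g =>
        obtain ⟨n, hn⟩ := (U.2.1 g hx).1
        refine ⟨⟨{(g, n)}, ?_, by simp⟩, (hR_fn _ _ _ _).mpr ⟨(g, n), by simp, ?_, ?_⟩⟩
        · intro p hp g' hg'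
          rw [Finset.mem_singleton] at hp
          subst hp
          exact hn g' hg'
        · intro m _
          exact le_rfl
        · intro m hm
          exact absurd hm (Nat.not_lt_zero _)
      | pt m k => exact ⟨P₀, hR_pt _ _ _ _ _⟩
      | c => exact ⟨P₀, (hR_c _ _ _).mpr hx⟩) hup
    exact ⟨P.1, P.2.1, P.2.2, hP⟩
  -- Step 2: the recursion step
  have step : ∀ t (j : ℕ → ℕ), R P j t ∈ F → ∃ i, R P (Function.update j t i) (t + 1) ∈ F := by
    intro t j hj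
    refine mem_of_directed hdir (fun i => R P (Function.update j t i) (t + 1)) ?_ (R P j t) hj ?_ hup
    · refine Monotone.directed_le ?_
      intro i i' hii x hx
      cases x with
      | pt m k => exact hR_pt _ _ _ _ _
      | c => exact (hR_c _ _ _).mpr ((hR_c _ _ _).mp hx)
      | fn g =>
        obtain ⟨p, hp, h3, h4⟩ := (hR_fn _ _ _ _).mp hx
        refine (hR_fn _ _ _ _).mpr ⟨p, hp, h3, ?_⟩
        intro m hm
        have h5 := h4 m hm
        by_cases hmt : m = t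
        · subst hmt
          simp only [Function.update_self] at h5 ⊢
          exact h5.trans hii
        · simpa [Function.update_of_ne hmt] using h5
    · intro x hx
      cases x with
      | pt m k => exact ⟨0, hR_pt _ _ _ _ _⟩
      | c => exact ⟨0, (hR_c _ _ _).mpr ((hR_c _ _ _).mp hx)⟩
      | fn g =>
        obtain ⟨p, hp, h3, h4⟩ := (hR_fn _ _ _ _).mp hx
        refine ⟨g (p.2 + t), (hR_fn _ _ _ _).mpr ⟨p, hp, h3, ?_⟩⟩
        intro m hm
        by_cases hmt : m = t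
        · subst hmt
          simp
        · rw [Function.update_of_ne hmt]
          exact h4 m (by omega)
  -- Step 3: recursive choice
  let s : (t : ℕ) → {j : ℕ → ℕ // R P j t ∈ F} := fun t =>
    Nat.rec (motive := fun t => {j : ℕ → ℕ // R P j t ∈ F}) ⟨fun _ => 0, hPF⟩
      (fun t j => ⟨Function.update j.1 t (Classical.choose (step t j.1 j.2)),
        Classical.choose_spec (step t j.1 j.2)⟩) t
  have hs : ∀ t m, m < t → (s (t + 1)).1 m = (s t).1 m := by
    intro t m hmt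
    change Function.update (s t).1 t _ m = (s t).1 m
    exact Function.update_of_ne (by omega) _ _
  have hs' : ∀ m i, (s (m + 1 + i)).1 m = (s (m + 1)).1 m := by
    intro m i
    induction i with
    | zero => rfl
    | succ i ih =>
      have := hs (m + 1 + i) m (by omega)
      rw [← ih, ← this]
      rfl
  let j : ℕ → ℕ := fun m => (s (m + 1)).1 m
  have hj : ∀ t, R P j t ∈ F := by
    intro t
    refine hup ?_ (s t).2
    intro x hx
    cases x with
    | pt m k => exact hR_pt _ _ _ _ _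
    | c => exact (hR_c _ _ _).mpr ((hR_c _ _ _).mp hx)
    | fn g =>
      obtain ⟨p, hp, h3, h4⟩ := (hR_fn _ _ _ _).mp hx
      refine (hR_fn _ _ _ _).mpr ⟨p, hp, h3, ?_⟩
      intro m hm
      have h1 := h4 m hm
      have h2 := hs' m (t - (m + 1))
      have h5 : m + 1 + (t - (m + 1)) = t := by omega
      rw [h5] at h2
      change g (p.2 + m) ≤ (s (m + 1)).1 m
      rw [← h2]
      exact h1
  -- the limiting functions
  let lim : (ℕ → ℕ) × ℕ → (ℕ → ℕ) := fun p m => if m < p.2 then p.1 m else j (m - p.2)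
  let E : Finset Pt := (P.image fun p => Pt.fn (lim p)) ∪ (if Pt.c ∈ U then {Pt.c} else ∅)
  refine ⟨E, ?_, ?_⟩
  · intro x hx
    rcases Finset.mem_union.mp hx with h | h
    · obtain ⟨p, hp, rfl⟩ := Finset.mem_image.mp h
      refine hPU p hp _ ?_
      intro m hm
      simp [lim, hm]
    · split_ifs at h with hcU
      · rw [Finset.mem_singleton] at h
        exact h ▸ hcU
      · simp at h
  · intro V hV
    have hfnV : ∀ p ∈ P, Pt.fn (lim p) ∈ V := fun p hp =>
      hV _ (Finset.mem_union_left _ (Finset.mem_image.mpr ⟨p, hp, rfl⟩))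
    have hcV : Pt.c ∈ U → Pt.c ∈ V := fun hcU =>
      hV _ (Finset.mem_union_right _ (by rw [if_pos hcU]; simp))
    have hTV : ∀ m k, Pt.pt m k ∈ V := by
      obtain ⟨p, hp⟩ := hPne
      exact (V.2.1 _ (hfnV p hp)).2
    have hN : ∀ p, ∃ n, ∀ hp : p ∈ P, ∀ g : ℕ → ℕ, (∀ m < n, g m ≤ lim p m) → Pt.fn g ∈ V := by
      intro p
      by_cases hp : p ∈ P
      · obtain ⟨n, hn⟩ := (V.2.1 _ (hfnV p hp)).1
        exact ⟨n, fun _ => hn⟩
      · exact ⟨0, fun h => absurd h hp⟩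
    choose N hN using hN
    refine hup ?_ (hj (P.sup N))
    intro x hx
    cases x with
    | pt m k => exact hTV m k
    | c => exact hcV ((hR_c _ _ _).mp hx)
    | fn g =>
      obtain ⟨p, hp, h3, h4⟩ := (hR_fn _ _ _ _).mp hx
      refine hN p hp g ?_
      intro m hm
      by_cases hmp : m < p.2
      · simpa [lim, hmp] using h3 m hmp
      · have h5 : N p ≤ P.sup N := Finset.le_sup hp
        have h6 := h4 (m - p.2) (by omega)
        have h7 : p.2 + (m - p.2) = m := by omega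
        rw [h7] at h6
        simpa [lim, hmp] using h6

theorem finCons_Pt : FinCons Pt := by
  intro F hup hdir U hU
  by_cases hfn : ∃ h, Pt.fn h ∈ U
  · obtain ⟨h₀, hh⟩ := hfn
    exact case_C F hup hdir U hU h₀ hh
  · push Not at hfn
    by_cases hc : Pt.c ∈ U
    · exact case_B F hup hdir U hU hfn hc
    · exact case_A F hup hdir U hU hfn hc

/-! ### The Smyth powerspace is not co-consonant -/

/-- The saturation of a nonempty finite set as a point of the Smyth powerspace. -/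
def satPt {X : Type} [TopologicalSpace X] (E : Finset X) (hE : E.Nonempty) : Smyth X :=
  ⟨⋂₀ {U : Set X | IsOpen U ∧ (E : Set X) ⊆ U}, by
    obtain ⟨x, hx⟩ := hE
    exact ⟨x, Set.mem_sInter.mpr fun U hU => hU.2 hx⟩, by
    classical
    refine isCompact_of_finite_subcover ?_
    intro ι U hU hK
    have hE' : (E : Set X) ⊆ ⋃ i, U i := fun x hx => hK (Set.mem_sInter.mpr fun V hV => hV.2 hx)
    obtain ⟨t, ht⟩ := E.finite_toSet.isCompact.elim_finite_subcover U hU hE'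
    exact ⟨t, Set.sInter_subset_of_mem ⟨isOpen_biUnion fun i _ => hU i, ht⟩⟩, by
    apply Set.Subset.antisymm
    · intro x hx
      rw [Set.mem_sInter] at hx ⊢
      intro U hU
      exact hx U ⟨hU.1, Set.sInter_subset_of_mem hU⟩
    · intro x hx
      rw [Set.mem_sInter]
      intro U hU
      exact hU.2 hx⟩

theorem subset_satPt {X : Type} [TopologicalSpace X] (E : Finset X) (hE : E.Nonempty) :
    (E : Set X) ⊆ (satPt E hE).1 := fun _ hx => Set.mem_sInter.mpr fun _ hV => hV.2 hx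

theorem satPt_subset {X : Type} [TopologicalSpace X] (E : Finset X) (hE : E.Nonempty) {U : Set X}
    (hU : IsOpen U) (h : (E : Set X) ⊆ U) : (satPt E hE).1 ⊆ U :=
  Set.sInter_subset_of_mem ⟨hU, h⟩

/-- Basic open sets of the Smyth powerspace. -/
def bx {X : Type} [TopologicalSpace X] (U : Set X) : Set (Smyth X) := {K | K.1 ⊆ U}

theorem isOpen_bx {X : Type} [TopologicalSpace X] {U : Set X} (hU : IsOpen U) : IsOpen (bx U) :=
  TopologicalSpace.isOpen_generateFrom_of_mem ⟨U, hU, rfl⟩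

theorem exists_bx {X : Type} [TopologicalSpace X] {W : Set (Smyth X)} (hW : IsOpen W) :
    ∀ K ∈ W, ∃ U : Set X, IsOpen U ∧ K ∈ bx U ∧ bx U ⊆ W := by
  induction hW with
  | basic s hs =>
    obtain ⟨U, hU, rfl⟩ := hs
    intro K hK
    exact ⟨U, hU, hK, subset_rfl⟩
  | univ => exact fun K _ => ⟨Set.univ, isOpen_univ, fun _ _ => trivial, fun _ _ => trivial⟩
  | inter s t _ _ hs iht =>
    rintro K ⟨hKs, hKt⟩
    obtain ⟨U, hU, hKU, hUs⟩ := hs K hKs
    obtain ⟨V, hV, hKV, hVt⟩ := iht K hKt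
    exact ⟨U ∩ V, hU.inter hV, fun x hx => ⟨hKU hx, hKV hx⟩, fun L hL =>
      ⟨hUs (fun x hx => (hL hx).1), hVt (fun x hx => (hL hx).2)⟩⟩
  | sUnion S _ ih =>
    rintro K ⟨s, hs, hKs⟩
    obtain ⟨U, hU, hKU, hUs⟩ := ih s hs K hKs
    exact ⟨U, hU, hKU, fun L hL => ⟨s, hs, hUs hL⟩⟩

/-- The Scott open family on the powerspace of `Pt`. -/
def fam : Set (Opens (Smyth Pt)) :=
  {W | ∃ W₁ W₂ : Set Pt, IsOpen W₁ ∧ IsOpen W₂ ∧ Pt.c ∈ W₂ ∧
    (∃ g : ℕ → ℕ, Pt.fn g ∈ W₁ ∧ ∀ m, Pt.pt m (g m) ∈ W₂) ∧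
    bx W₁ ⊆ (W : Set (Smyth Pt)) ∧ bx W₂ ⊆ (W : Set (Smyth Pt))}

theorem fam_upper : IsUpperSet fam := by
  rintro U V hUV ⟨W₁, W₂, h1, h2, h3, h4, h5, h6⟩
  exact ⟨W₁, W₂, h1, h2, h3, h4, h5.trans hUV, h6.trans hUV⟩

theorem fam_dir : DirSupInacc fam := by
  classical
  rintro D hDne hD W hW ⟨W₁, W₂, h1, h2, h3, ⟨g, hg1, hg2⟩, h5, h6⟩
  have hWsub : ∀ K ∈ W, ∃ S ∈ D, K ∈ S := by
    intro K hK
    have : W = sSup D := hW.unique (isLUB_sSup D)
    rw [this] at hK
    exact Opens.mem_sSup.mp hK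
  -- first step
  have hK1 : satPt {Pt.fn g} (by simp) ∈ W := h5 (satPt_subset _ _ h1 (by simpa using hg1))
  obtain ⟨S, hSD, hS⟩ := hWsub _ hK1
  obtain ⟨W₁', hW₁', hKW, hWS⟩ := exists_bx S.2 _ hS
  have hg1' : Pt.fn g ∈ W₁' := hKW (subset_satPt _ _ (by simp))
  obtain ⟨⟨n, hn⟩, -⟩ := hW₁'.1 g hg1'
  -- second step
  have hK2 : satPt (insert Pt.c ((Finset.range n).image fun m => Pt.pt m (g m))) (by simp) ∈ W := by
    apply h6
    apply satPt_subset _ _ h2
    intro x hx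
    rcases Finset.mem_insert.mp (Finset.mem_coe.mp hx) with rfl | hx
    · exact h3
    · obtain ⟨m, _, rfl⟩ := Finset.mem_image.mp hx
      exact hg2 m
  obtain ⟨T, hTD, hT⟩ := hWsub _ hK2
  obtain ⟨W₂', hW₂', hKW2, hWT⟩ := exists_bx T.2 _ hT
  have hc' : Pt.c ∈ W₂' := hKW2 (subset_satPt _ _ (by simp))
  have hg2' : ∀ m < n, Pt.pt m (g m) ∈ W₂' := by
    intro m hm
    apply hKW2
    apply subset_satPt
    exact Finset.mem_coe.mpr (Finset.mem_insert_of_mem
      (Finset.mem_image.mpr ⟨m, Finset.mem_range.mpr hm, rfl⟩))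
  choose q hq using hW₂'.2.2 hc'
  obtain ⟨R, hRD, hSR, hTR⟩ := hD S hSD T hTD
  refine ⟨R, hRD, W₁', W₂', hW₁', hW₂', hc',
    ⟨fun m => if m < n then g m else q m, ?_, ?_⟩, hWS.trans hSR, hWT.trans hTR⟩
  · apply hn
    intro m hm
    simp [hm]
  · intro m
    by_cases hm : m < n
    · simpa [hm] using hg2' m hm
    · simpa [hm] using hq m

theorem not_finCons_Smyth : ¬ FinCons (Smyth Pt) := by
  classical
  intro hcons
  -- the two pieces
  let Z₁ : Set Pt := {Pt.c}ᶜ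
  let Z₂ : Set Pt := {x | ∀ h, x ≠ Pt.fn h}
  have hZ₁ : IsOpen Z₁ := isOpen_compl_c
  have hZ₂ : IsOpen Z₂ :=
    ⟨fun h hh => absurd rfl (hh h), fun m k j _ _ => by simp [Z₂], fun _ m => ⟨0, by simp [Z₂]⟩⟩
  let U₀ : Opens (Smyth Pt) := ⟨bx Z₁ ∪ bx Z₂, (isOpen_bx hZ₁).union (isOpen_bx hZ₂)⟩
  have hU₀ : U₀ ∈ fam := by
    refine ⟨Z₁, Z₂, hZ₁, hZ₂, by simp [Z₂], ⟨fun _ => 0, by simp [Z₁], fun m => by simp [Z₂]⟩,
      Set.subset_union_left, Set.subset_union_right⟩
  obtain ⟨E, hEU, hE⟩ := hcons fam fam_upper fam_dir U₀ hU₀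
  -- bounds for the compact sets inside `Z₁`
  have hb : ∀ K : Smyth Pt, ∀ m, ∃ b : ℕ, K.1 ⊆ Z₁ → ∀ g, Pt.fn g ∈ K.1 → g m ≤ b := by
    intro K m
    by_cases hK : K.1 ⊆ Z₁
    · let O' : ℕ → Set Pt := fun j => {x | x ∈ Z₁ ∧ ∀ g, x = Pt.fn g → g m ≤ j}
      have hO' : ∀ j, IsOpen (O' j) := by
        intro j
        refine ⟨?_, ?_, ?_⟩
        · rintro h ⟨h1, h2⟩
          refine ⟨⟨m + 1, fun g hg => ⟨by simp [Z₁], ?_⟩⟩, fun m k => ⟨by simp [Z₁], by simp⟩⟩
          intro g' hg'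
          simp only [Pt.fn.injEq] at hg'
          subst hg'
          exact (hg m (Nat.lt_succ_self m)).trans (h2 h rfl)
        · intro m k i _ _
          exact ⟨by simp [Z₁], by simp⟩
        · intro h
          exact absurd rfl h.1
      have hcov : K.1 ⊆ ⋃ j, O' j := by
        intro x hx
        have hxZ := hK hx
        cases x with
        | fn g =>
          refine Set.mem_iUnion.mpr ⟨g m, hxZ, ?_⟩
          intro g' hg'
          simp only [Pt.fn.injEq] at hg'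
          subst hg'
          exact le_rfl
        | pt a b => exact Set.mem_iUnion.mpr ⟨0, hxZ, by simp⟩
        | c => exact absurd rfl hxZ
      have hmono : Monotone O' := fun i j hij x hx => ⟨hx.1, fun g hg => (hx.2 g hg).trans hij⟩
      obtain ⟨b, hb⟩ := K.2.2.1.elim_directed_cover O' hO' hcov hmono.directed_le
      exact ⟨b, fun _ g hg => (hb hg).2 g rfl⟩
    · exact ⟨0, fun h => absurd h hK⟩
  choose B hB using hb
  let h : ℕ → ℕ := fun m => E.sup fun K => B K m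
  have hh : ∀ K ∈ E, K.1 ⊆ Z₁ → ∀ g, Pt.fn g ∈ K.1 → ∀ m, g m ≤ h m := by
    intro K hK hKZ g hg m
    exact (hB K m hKZ g hg).trans (Finset.le_sup (f := fun K => B K m) hK)
  -- bounds for the compact sets inside `Z₂`
  let G : ℕ → Set Pt := fun j => {x | x ∈ Z₂ ∧ ∀ m k, x = Pt.pt m k → m < j ∨ h m + 1 ≤ k}
  have hGo : ∀ j, IsOpen (G j) := by
    intro j
    refine ⟨fun g hg => absurd rfl (hg.1 g), ?_, ?_⟩
    · rintro m k i ⟨_, h2⟩ hki
      refine ⟨by simp [Z₂], ?_⟩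
      intro m' k' hmk
      simp only [Pt.pt.injEq] at hmk
      obtain ⟨rfl, rfl⟩ := hmk
      rcases h2 m k rfl with h3 | h3
      · exact Or.inl h3
      · exact Or.inr (h3.trans hki)
    · intro _ m
      refine ⟨h m + 1, by simp [Z₂], ?_⟩
      intro m' k' hmk
      simp only [Pt.pt.injEq] at hmk
      obtain ⟨rfl, rfl⟩ := hmk
      exact Or.inr le_rfl
  have hGmono : Monotone G := fun i j hij x hx =>
    ⟨hx.1, fun m k hmk => (hx.2 m k hmk).imp (fun h => lt_of_lt_of_le h hij) id⟩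
  have hj : ∀ K : Smyth Pt, ∃ j, K.1 ⊆ Z₂ → K.1 ⊆ G j := by
    intro K
    by_cases hK : K.1 ⊆ Z₂
    · have hcov : K.1 ⊆ ⋃ j, G j := by
        intro x hx
        have hxZ := hK hx
        cases x with
        | fn g => exact absurd rfl (hxZ g)
        | c => exact Set.mem_iUnion.mpr ⟨0, hxZ, by simp⟩
        | pt m k =>
          refine Set.mem_iUnion.mpr ⟨m + 1, hxZ, ?_⟩
          intro m' k' hmk
          simp only [Pt.pt.injEq] at hmk
          obtain ⟨rfl, rfl⟩ := hmk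
          exact Or.inl (Nat.lt_succ_self _)
      obtain ⟨j, hj⟩ := K.2.2.1.elim_directed_cover G hGo hcov hGmono.directed_le
      exact ⟨j, fun _ => hj⟩
    · exact ⟨0, fun h => absurd h hK⟩
  choose J hJ using hj
  let j : ℕ := E.sup J
  have hEG : ∀ K ∈ E, K.1 ⊆ Z₂ → K.1 ⊆ G j := fun K hK hKZ =>
    (hJ K hKZ).trans (hGmono (Finset.le_sup hK))
  -- the open set which leads to a contradiction
  let V : Opens (Smyth Pt) := ⟨bx (Gset h (j + 1)) ∪ bx (G j),
    (isOpen_bx (isOpen_Gset _ _)).union (isOpen_bx (hGo j))⟩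
  have hEV : ∀ K ∈ E, K ∈ V := by
    intro K hK
    rcases hEU K hK with hKZ | hKZ
    · refine Or.inl fun x hx => ?_
      cases x with
      | fn g => exact (fn_mem_Gset _ _ _).mpr fun m _ => hh K hK hKZ g hx m
      | pt m k => exact Or.inl ⟨m, k, rfl⟩
      | c => exact absurd rfl (hKZ hx)
    · exact Or.inr (hEG K hK hKZ)
  obtain ⟨V₁, V₂, hV₁, hV₂, hcV, ⟨g, hg1, hg2⟩, hs1, hs2⟩ := hE V hEV
  have h1 : satPt {Pt.fn g} (by simp) ∈ V := hs1 (satPt_subset _ _ hV₁ (by simpa using hg1))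
  have h2 : satPt {Pt.c, Pt.pt j (g j)} (by simp) ∈ V := by
    apply hs2
    apply satPt_subset _ _ hV₂
    intro x hx
    simp only [Finset.coe_insert, Finset.coe_singleton, Set.mem_insert_iff,
      Set.mem_singleton_iff] at hx
    rcases hx with rfl | rfl
    · exact hcV
    · exact hg2 j
  have h3 : g j ≤ h j := by
    rcases h1 with h1 | h1
    · have := h1 (subset_satPt _ _ (show Pt.fn g ∈ (({Pt.fn g} : Finset Pt) : Set Pt) by simp))
      exact (fn_mem_Gset _ _ _).mp this j (Nat.lt_succ_self _)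
    · have := h1 (subset_satPt _ _ (show Pt.fn g ∈ (({Pt.fn g} : Finset Pt) : Set Pt) by simp))
      exact absurd rfl (this.1 g)
  have h4 : h j + 1 ≤ g j := by
    rcases h2 with h2 | h2
    · have := h2 (subset_satPt _ _ (show Pt.c ∈ (({Pt.c, Pt.pt j (g j)} : Finset Pt) : Set Pt) by simp))
      rcases this with ⟨_, _, h5⟩ | ⟨_, h5, _⟩ <;> simp at h5
    · have := h2 (subset_satPt _ _
        (show Pt.pt j (g j) ∈ (({Pt.c, Pt.pt j (g j)} : Finset Pt) : Set Pt) by simp))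
      rcases this.2 j (g j) rfl with h5 | h5
      · exact absurd h5 (lt_irrefl _)
      · exact h5
  omega

/-- There is a co-consonant `T₀` space whose Smyth powerspace is not co-consonant. -/
theorem result : ∃ (X : Type) (_ : TopologicalSpace X),
    T0Space X ∧ CoConsonant X ∧ ¬ CoConsonant (Smyth X) :=
  ⟨Pt, topPt, inferInstance, coConsonant_of_finCons finCons_Pt,
    fun h => not_finCons_Smyth (finCons_of_coConsonant h)⟩

end Pool.Agent.Results.MP_8dcd4d_gt.NotCoConsonant
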